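import Pool.Agent.H71.RF.Nat2

/-!
The classes `eA λ ∈ Ext²_{Γ/A}(ℤ, ℤ)` of a central extension `1 → A → Γ → Γ/A → 1` and `λ : A → ℤ`.
-/

namespace Pool.Agent.H71.RF

open CategoryTheory CategoryTheory.Abelian CategoryTheory.Limits Pool.Agent.H5.CP

variable {Γ : Type} [Group Γ]

/-- a section of `Γ → Γ/A` -/
noncomputable def sec (A : Subgroup Γ) (g : Γ ⧸ A) : Γ := Quotient.out g

theorem mk_sec (A : Subgroup Γ) (g : Γ ⧸ A) : (QuotientGroup.mk (sec A g) : Γ ⧸ A) = g :=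
  Quotient.out_eq g

theorem cA_mem (A : Subgroup Γ) [A.Normal] (g g' : Γ ⧸ A) :
    sec A g * sec A g' * (sec A (g * g'))⁻¹ ∈ A := by
  rw [← QuotientGroup.eq_one_iff, QuotientGroup.mk_mul, QuotientGroup.mk_mul, QuotientGroup.mk_inv,
    mk_sec, mk_sec, mk_sec, mul_inv_cancel]

/-- the factor set, with values in `A` -/
noncomputable def cA (A : Subgroup Γ) [A.Normal] (g g' : Γ ⧸ A) : A :=
  ⟨sec A g * sec A g' * (sec A (g * g'))⁻¹, cA_mem A g g'⟩

theorem cA_spec (A : Subgroup Γ) [A.Normal] (g g' : Γ ⧸ A) :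
    sec A g * sec A g' = (cA A g g' : Γ) * sec A (g * g') := by
  change _ = sec A g * sec A g' * (sec A (g * g'))⁻¹ * sec A (g * g')
  rw [inv_mul_cancel_right]

theorem cA_coc (A : Subgroup Γ) [A.Normal] (hA : A ≤ Subgroup.center Γ) (x y z : Γ ⧸ A) :
    cA A y z * cA A x (y * z) = cA A (x * y) z * cA A x y := by
  have hc : ∀ (a : A) (g : Γ), g * (a : Γ) = (a : Γ) * g := fun a g =>
    Subgroup.mem_center_iff.1 (hA a.2) g
  have h1 : sec A x * (sec A y * sec A z) =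
      (cA A y z : Γ) * ((cA A x (y * z) : Γ) * sec A (x * (y * z))) := by
    rw [cA_spec A y z, ← mul_assoc, hc, mul_assoc, cA_spec]
  have h2 : sec A x * sec A y * sec A z =
      (cA A x y : Γ) * ((cA A (x * y) z : Γ) * sec A (x * y * z)) := by
    rw [cA_spec A x y, mul_assoc, cA_spec]
  rw [mul_assoc] at h2
  rw [h2, ← mul_assoc, ← mul_assoc, mul_assoc x y z] at h1
  have h3 := mul_right_cancel h1
  apply Subtype.ext
  change (cA A y z : Γ) * (cA A x (y * z) : Γ) = (cA A (x * y) z : Γ) * (cA A x y : Γ)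
  rw [← h3]
  exact hc (cA A (x * y) z) (cA A x y : Γ)

/-- homomorphisms `A → ℤ`, written multiplicatively on the source -/
abbrev HomZ (A : Subgroup Γ) := A →* Multiplicative ℤ

/-- the integral cocycle attached to `l : A → ℤ` -/
noncomputable def fA (A : Subgroup Γ) [A.Normal] (l : HomZ A) (g g' : Γ ⧸ A) : ℤ :=
  Multiplicative.toAdd (l (cA A g g'))

theorem fA_coc (A : Subgroup Γ) [A.Normal] (hA : A ≤ Subgroup.center Γ) (l : HomZ A) :
    IsCoc (fA A l) := by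
  intro x y z
  have h := congrArg (fun a => Multiplicative.toAdd (l a)) (cA_coc A hA x y z)
  simp only [map_mul, toAdd_mul] at h
  exact h

/-- the class `e_l` -/
noncomputable def eA (A : Subgroup Γ) [A.Normal] (hA : A ≤ Subgroup.center Γ) (l : HomZ A) :
    Ext (Rep.trivial ℤ (Γ ⧸ A) ℤ) (Rep.trivial ℤ (Γ ⧸ A) ℤ) 2 :=
  cls ℤ (fA A l) (fA_coc A hA l)

theorem eA_mul (A : Subgroup Γ) [A.Normal] (hA : A ≤ Subgroup.center Γ) (l l' : HomZ A) :
    eA A hA (l * l') = eA A hA l + eA A hA l' :=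
  cls_add (k := ℤ) (fA A l) (fA A l') (fA_coc A hA l) (fA_coc A hA l') (fA_coc A hA (l * l'))

/-- `l ↦ e_l` as a homomorphism -/
noncomputable def eAhom (A : Subgroup Γ) [A.Normal] (hA : A ≤ Subgroup.center Γ) :
    Additive (HomZ A) →+ Ext (Rep.trivial ℤ (Γ ⧸ A) ℤ) (Rep.trivial ℤ (Γ ⧸ A) ℤ) 2 :=
  AddMonoidHom.mk' (fun l => eA A hA (Additive.toMul l)) fun l l' => eA_mul A hA _ _

/-- the kernel of `l : A → ℤ` as a subgroup of `Γ` -/
def kerA (A : Subgroup Γ) (l : HomZ A) : Subgroup Γ := l.ker.map A.subtype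

theorem mem_kerA (A : Subgroup Γ) (l : HomZ A) (x : Γ) :
    x ∈ kerA A l ↔ ∃ h : x ∈ A, l ⟨x, h⟩ = 1 := by
  constructor
  · rintro ⟨y, hy, rfl⟩
    exact ⟨y.2, hy⟩
  · rintro ⟨h, hx⟩
    exact ⟨⟨x, h⟩, hx, rfl⟩

theorem kerA_le (A : Subgroup Γ) (l : HomZ A) : kerA A l ≤ A := by
  intro x hx
  exact ((mem_kerA A l x).1 hx).1

/-- the inclusion of trivial modules `ℤ → ℚ` -/
noncomputable def ιQ (G : Type) [Group G] : Rep.trivial ℤ G ℤ ⟶ Rep.trivial ℤ G ℚ :=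
  tmap (k := ℤ) G ((Int.castAddHom ℚ).toIntLinearMap)

end Pool.Agent.H71.RF
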