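import Pool.Agent.H5.CP.AugE
import Pool.Agent.H5.CP.ABs

/-!
MP_37b730_gt, Theorem 3 (residually finite groups of type FP are in CP), helper71: definitions.
`cls f ∈ Ext²_G(k, V)` is the class of a 2-cocycle `f : G → G → V` (trivial coefficients), defined as the
Yoneda product of `0 → I → k[G] → k → 0` and `0 → V → V × I → I → 0` (twisted action).
-/

namespace Pool.Agent.H71.RF

open CategoryTheory CategoryTheory.Abelian CategoryTheory.Limits Pool.Agent.H5.CP

/-- 2-cocycles with values in the trivial module `V` -/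
def IsCoc {G V : Type} [Group G] [AddCommGroup V] (f : G → G → V) : Prop :=
  ∀ x y z : G, f y z + f x (y * z) = f (x * y) z + f x y

section

variable {k G V : Type} [CommRing k] [Group G] [AddCommGroup V] [Module k V]

/-- the `k`-linear extension of `b : G → V` to the group ring -/
noncomputable def linx (k : Type) {G V : Type} [CommRing k] [Group G] [AddCommGroup V] [Module k V]
    (b : G → V) : MonoidAlgebra k G →ₗ[k] V :=
  (Finsupp.lift V k G b) ∘ₗ (MonoidAlgebra.coeffLinearEquiv k).toLinearMap

theorem linx_single (b : G → V) (g : G) (r : k) :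
    linx k b (MonoidAlgebra.single g r) = r • b g := by
  simp [linx]

/-- the augmentation ideal -/
noncomputable abbrev Iaug (k G : Type) [CommRing k] [Group G] : Rep.{0} k G := kernel (aug k G)

/-- inclusion of the augmentation ideal -/
noncomputable def inc (k G : Type) [CommRing k] [Group G] :
    (Iaug k G).V →ₗ[k] MonoidAlgebra k G :=
  (kernel.ι (aug k G)).hom.toLinearMap

theorem inc_aug (x : (Iaug k G).V) : (aug k G).hom (inc k G x) = 0 :=
  ABs_aug_ι x

theorem inc_rho (g : G) (x : (Iaug k G).V) :
    inc k G ((Iaug k G).ρ g x) = (Rep.leftRegular k G).ρ g (inc k G x) :=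
  Rep.hom_comm_apply (kernel.ι (aug k G)) g x

/-- a linear map on `k[G]` which is constant on `G` vanishes on the augmentation ideal -/
theorem linx_eq_aug (F : MonoidAlgebra k G →ₗ[k] V) (v : V)
    (h : ∀ z : G, F (MonoidAlgebra.single z 1) = v) (x : (Iaug k G).V) : F (inc k G x) = 0 := by
  have h1 : F = (LinearMap.toSpanSingleton k V v) ∘ₗ (aug k G).hom.toLinearMap := by
    refine MonoidAlgebra.lhom_ext' fun a => ?_
    ext
    change F (MonoidAlgebra.single a 1) =
      (LinearMap.toSpanSingleton k V v)
        ((aug k G).hom (MonoidAlgebra.single a 1 : MonoidAlgebra k G))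
    rw [ABs_aug_single, h, LinearMap.toSpanSingleton_apply, one_smul]
  rw [h1]
  change (LinearMap.toSpanSingleton k V v) ((aug k G).hom (inc k G x)) = 0
  rw [inc_aug, map_zero]

/-- the action of `G` on `V × I` -/
noncomputable def EMρ (k : Type) {G V : Type} [CommRing k] [Group G] [AddCommGroup V] [Module k V]
    (f : G → G → V) (g : G) :
    (V × (Iaug k G).V) →ₗ[k] (V × (Iaug k G).V) :=
  LinearMap.prod (LinearMap.fst k V (Iaug k G).V +
    linx k (f g) ∘ₗ inc k G ∘ₗ LinearMap.snd k V (Iaug k G).V)
    ((Iaug k G).ρ g ∘ₗ LinearMap.snd k V (Iaug k G).V)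

theorem EMρ_apply (f : G → G → V) (g : G)
    (x : V × (Iaug k G).V) : EMρ k f g x =
      (x.1 + linx k (f g) (inc k G x.2), (Iaug k G).ρ g x.2) := rfl

/-- the twisted module `V × I` -/
noncomputable def EMrep (k : Type) {G V : Type} [CommRing k] [Group G] [AddCommGroup V]
    [Module k V] (f : G → G → V) (hf : IsCoc f) :
    Representation k G (V × (Iaug k G).V) where
  toFun := EMρ k f
  map_one' := by
    refine LinearMap.ext fun x => ?_
    rw [EMρ_apply]
    have h1 : linx k (f 1) (inc k G x.2) = 0 := by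
      refine linx_eq_aug _ (f 1 1) (fun z => ?_) x.2
      rw [linx_single, one_smul]
      have h := hf 1 1 z
      rw [one_mul, one_mul] at h
      exact add_left_cancel h
    rw [h1, add_zero, map_one]
    rfl
  map_mul' := by
    intro g h
    refine LinearMap.ext fun x => ?_
    change EMρ k f (g * h) x = EMρ k f g (EMρ k f h x)
    rw [EMρ_apply, EMρ_apply, EMρ_apply]
    refine Prod.ext ?_ ?_
    · change x.1 + linx k (f (g * h)) (inc k G x.2) =
        x.1 + linx k (f h) (inc k G x.2) + linx k (f g) (inc k G ((Iaug k G).ρ h x.2))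
      rw [inc_rho, add_assoc]
      congr 1
      have key : (linx k (f h) + linx k (f g) ∘ₗ ((Rep.leftRegular k G).ρ h) -
          linx k (f (g * h)) : MonoidAlgebra k G →ₗ[k] V) (inc k G x.2) = 0 := by
        refine linx_eq_aug _ (f g h) (fun z => ?_) x.2
        change linx k (f h) (MonoidAlgebra.single z 1) +
          linx k (f g) ((Rep.leftRegular k G).ρ h (MonoidAlgebra.single z 1 : MonoidAlgebra k G)) -
          linx k (f (g * h)) (MonoidAlgebra.single z 1) = f g h
        rw [ABs_ρ_single, linx_single, linx_single, linx_single, one_smul, one_smul, one_smul, hf]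
        abel
      have key' : linx k (f h) (inc k G x.2) +
          linx k (f g) ((Rep.leftRegular k G).ρ h (inc k G x.2)) -
          linx k (f (g * h)) (inc k G x.2) = 0 := key
      exact (sub_eq_zero.1 key').symm
    · change (Iaug k G).ρ (g * h) x.2 = (Iaug k G).ρ g ((Iaug k G).ρ h x.2)
      rw [map_mul]
      rfl

/-- the module `E_f` -/
noncomputable def EM (k : Type) {G V : Type} [CommRing k] [Group G] [AddCommGroup V] [Module k V]
    (f : G → G → V) (hf : IsCoc f) : Rep.{0} k G := Rep.of (EMrep k f hf)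

/-- `V → E_f` -/
noncomputable def EMi (k : Type) {G V : Type} [CommRing k] [Group G] [AddCommGroup V] [Module k V]
    (f : G → G → V) (hf : IsCoc f) :
    Rep.trivial k G V ⟶ EM k f hf :=
  Rep.ofHom ⟨LinearMap.inl k V (Iaug k G).V, fun g => by
    refine LinearMap.ext fun v => ?_
    change ((v, 0) : V × (Iaug k G).V) = EMρ k f g (v, 0)
    rw [EMρ_apply]
    refine Prod.ext ?_ ?_
    · change v = v + linx k (f g) (inc k G 0)
      rw [map_zero, map_zero, add_zero]
    · change 0 = (Iaug k G).ρ g 0
      rw [map_zero]⟩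

/-- `E_f → I` -/
noncomputable def EMp (k : Type) {G V : Type} [CommRing k] [Group G] [AddCommGroup V] [Module k V]
    (f : G → G → V) (hf : IsCoc f) : EM k f hf ⟶ Iaug k G :=
  Rep.ofHom ⟨LinearMap.snd k V (Iaug k G).V, fun _ => rfl⟩

theorem EM_w (f : G → G → V) (hf : IsCoc f) : EMi k f hf ≫ EMp k f hf = 0 := by
  ext v
  rfl

/-- the short exact sequence `0 → V → E_f → I → 0` -/
noncomputable def EMS (k : Type) {G V : Type} [CommRing k] [Group G] [AddCommGroup V] [Module k V]
    (f : G → G → V) (hf : IsCoc f) :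
    ShortComplex (Rep.{0} k G) := ShortComplex.mk (EMi k f hf) (EMp k f hf) (EM_w f hf)

theorem EMS_exact (k : Type) {G V : Type} [CommRing k] [Group G] [AddCommGroup V] [Module k V]
    (f : G → G → V) (hf : IsCoc f) : (EMS k f hf).ShortExact := by
  refine ABs_shortExact _ ?_ ?_ ?_
  · intro a b h
    have h1 : ((a, 0) : V × (Iaug k G).V) = (b, 0) := h
    exact congrArg Prod.fst h1
  · intro y
    exact ⟨((0, y) : V × (Iaug k G).V), rfl⟩
  · intro x hx
    have h1 : (x : V × (Iaug k G).V).2 = 0 := hx
    exact ⟨(x : V × (Iaug k G).V).1, Prod.ext rfl h1.symm⟩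

/-- the class of `0 → I → k[G] → k → 0` -/
noncomputable def augCls (k G : Type) [CommRing k] [Group G] :
    Ext (Rep.trivial k G k) (Iaug k G) 1 := (AugE_exact k G).extClass

/-- the class of `0 → V → E_f → I → 0` -/
noncomputable def EMcls (k : Type) {G V : Type} [CommRing k] [Group G] [AddCommGroup V]
    [Module k V] (f : G → G → V) (hf : IsCoc f) :
    Ext (Iaug k G) (Rep.trivial k G V) 1 := (EMS_exact k f hf).extClass

/-- the class of a cocycle -/
noncomputable def cls (k : Type) {G V : Type} [CommRing k] [Group G] [AddCommGroup V] [Module k V]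
    (f : G → G → V) (hf : IsCoc f) :
    Ext (Rep.trivial k G k) (Rep.trivial k G V) 2 :=
  (augCls k G).comp (EMcls k f hf) rfl

/-- restriction of `Ext` classes along `φ : G' →* G` -/
noncomputable abbrev rs {G' : Type} [Group G'] (φ : G' →* G) {X Y : Rep.{0} k G}
    {n : ℕ} (x : Ext X Y n) :
    Ext ((Rep.resFunctor φ).obj X) ((Rep.resFunctor φ).obj Y) n :=
  x.mapExactFunctor (Rep.resFunctor φ)

end

/-- composition with `e` has kernel and cokernel killed by `s` in degrees at least `n` -/
def GysM {G : Type} [Group G] (e : Ext (Rep.trivial ℤ G ℤ) (Rep.trivial ℤ G ℤ) 2)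
    (M : Rep.{0} ℤ G) (s n : ℕ) : Prop :=
  ∀ i, n ≤ i → (∀ x : Ext (Rep.trivial ℤ G ℤ) M i, e.comp x rfl = 0 → s • x = 0) ∧
    (∀ y : Ext (Rep.trivial ℤ G ℤ) M (2 + i), ∃ x : Ext (Rep.trivial ℤ G ℤ) M i,
      s • y = e.comp x rfl)

end Pool.Agent.H71.RF
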