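import Pool.Agent.H71.RF.Defs

/-!
Naturality of the class of a cocycle in the coefficients.
-/

namespace Pool.Agent.H71.RF

open CategoryTheory CategoryTheory.Abelian CategoryTheory.Limits Pool.Agent.H5.CP

variable {k G V V' : Type} [CommRing k] [Group G] [AddCommGroup V] [Module k V]
  [AddCommGroup V'] [Module k V']

/-- the morphism of trivial modules given by a linear map -/
noncomputable def tmap (G : Type) [Group G] (α : V →ₗ[k] V') :
    Rep.trivial k G V ⟶ Rep.trivial k G V' :=
  Rep.ofHom ⟨α, fun _ => rfl⟩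

theorem tmap_id : tmap G (LinearMap.id : V →ₗ[k] V) = 𝟙 (Rep.trivial k G V) := rfl

theorem tmap_add (α β : V →ₗ[k] V') : tmap G (α + β) = tmap G α + tmap G β := by
  ext x
  rfl

/-- the morphism of extensions -/
noncomputable def pushE (f : G → G → V) (hf : IsCoc f) (f' : G → G → V') (hf' : IsCoc f')
    (α : V →ₗ[k] V') (b : G → V')
    (h : ∀ x y, f' x y = α (f x y) + b (x * y) - b x - b y) : EM k f hf ⟶ EM k f' hf' :=
  Rep.ofHom ⟨LinearMap.prod (α ∘ₗ LinearMap.fst k V (Iaug k G).V +
      linx k b ∘ₗ inc k G ∘ₗ LinearMap.snd k V (Iaug k G).V) (LinearMap.snd k V (Iaug k G).V), by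
    intro g
    refine LinearMap.ext fun x => ?_
    change ((α (x.1 + linx k (f g) (inc k G x.2)) + linx k b (inc k G ((Iaug k G).ρ g x.2)),
      (Iaug k G).ρ g x.2) : V' × (Iaug k G).V) =
      ((α x.1 + linx k b (inc k G x.2)) + linx k (f' g) (inc k G x.2), (Iaug k G).ρ g x.2)
    refine Prod.ext ?_ rfl
    change α (x.1 + linx k (f g) (inc k G x.2)) + linx k b (inc k G ((Iaug k G).ρ g x.2)) =
      (α x.1 + linx k b (inc k G x.2)) + linx k (f' g) (inc k G x.2)
    rw [inc_rho, map_add, add_assoc, add_assoc]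
    congr 1
    have key : (α ∘ₗ linx k (f g) + linx k b ∘ₗ ((Rep.leftRegular k G).ρ g) -
        linx k b - linx k (f' g) : MonoidAlgebra k G →ₗ[k] V') (inc k G x.2) = 0 := by
      refine linx_eq_aug _ (b g) (fun z => ?_) x.2
      change α (linx k (f g) (MonoidAlgebra.single z 1)) +
        linx k b ((Rep.leftRegular k G).ρ g (MonoidAlgebra.single z 1 : MonoidAlgebra k G)) -
        linx k b (MonoidAlgebra.single z 1) - linx k (f' g) (MonoidAlgebra.single z 1) = b g
      rw [ABs_ρ_single, linx_single, linx_single, linx_single, linx_single, one_smul, one_smul,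
        one_smul, one_smul, h]
      abel
    have key' : α (linx k (f g) (inc k G x.2)) +
        linx k b ((Rep.leftRegular k G).ρ g (inc k G x.2)) -
        linx k b (inc k G x.2) - linx k (f' g) (inc k G x.2) = 0 := key
    have h2 := sub_eq_zero.1 key'
    have h3 := sub_eq_iff_eq_add.1 h2
    rw [h3]
    abel⟩

theorem cls_push (f : G → G → V) (hf : IsCoc f) (f' : G → G → V') (hf' : IsCoc f')
    (α : V →ₗ[k] V') (b : G → V')
    (h : ∀ x y, f' x y = α (f x y) + b (x * y) - b x - b y) :
    (cls k f hf).comp (Ext.mk₀ (tmap G α)) (add_zero 2) = cls k f' hf' := by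
  let φ : EMS k f hf ⟶ EMS k f' hf' :=
    { τ₁ := tmap G α
      τ₂ := pushE f hf f' hf' α b h
      τ₃ := 𝟙 _
      comm₁₂ := by
        ext v
        change ((α v, 0) : V' × (Iaug k G).V) =
          ((α v + linx k b (inc k G 0), 0) : V' × (Iaug k G).V)
        rw [map_zero, map_zero, add_zero]
      comm₂₃ := by
        ext v
        rfl }
  have h1 := ShortComplex.ShortExact.extClass_naturality (EMS_exact k f hf) (EMS_exact k f' hf') φ
  have h2 : (EMcls k f hf).comp (Ext.mk₀ (tmap G α)) (add_zero 1) = EMcls k f' hf' :=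
    Eq.trans h1 (Ext.mk₀_id_comp _)
  unfold cls
  rw [Ext.comp_assoc_of_third_deg_zero, h2]

/-- additivity -/
theorem cls_add (f f' : G → G → V) (hf : IsCoc f) (hf' : IsCoc f')
    (h : IsCoc (fun x y => f x y + f' x y)) :
    cls k (fun x y => f x y + f' x y) h = cls k f hf + cls k f' hf' := by
  let F : G → G → V × V := fun x y => (f x y, f' x y)
  have hF : IsCoc F := fun x y z => Prod.ext (hf x y z) (hf' x y z)
  have h1 := cls_push (k := k) F hF f hf (LinearMap.fst k V V) (fun _ => 0)
    (fun x y => by simp [F])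
  have h2 := cls_push (k := k) F hF f' hf' (LinearMap.snd k V V) (fun _ => 0)
    (fun x y => by simp [F])
  have h3 := cls_push (k := k) F hF (fun x y => f x y + f' x y) h
    (LinearMap.fst k V V + LinearMap.snd k V V) (fun _ => 0) (fun x y => by simp [F])
  rw [← h1, ← h2, ← h3, tmap_add, Ext.mk₀_add, Ext.comp_add]

end Pool.Agent.H71.RF
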