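import Pool.Agent.H71.RF.Nat1

/-!
Naturality of the class of a cocycle under restriction along `φ : G' →* G`.
-/

namespace Pool.Agent.H71.RF

open CategoryTheory CategoryTheory.Abelian CategoryTheory.Limits Pool.Agent.H5.CP

variable {k G G' V : Type} [CommRing k] [Group G] [Group G'] [AddCommGroup V] [Module k V]

/-- `k[G'] → k[G]` -/
noncomputable def algφ (k : Type) {G G' : Type} [CommRing k] [Group G] [Group G'] (φ : G' →* G) :
    Rep.leftRegular k G' ⟶ (Rep.resFunctor φ).obj (Rep.leftRegular k G) :=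
  Rep.leftRegularHom ((Rep.resFunctor φ).obj (Rep.leftRegular k G))
    (MonoidAlgebra.single 1 1 : MonoidAlgebra k G)

theorem algφ_single (φ : G' →* G) (g : G') (r : k) :
    (algφ k φ).hom (MonoidAlgebra.single g r : MonoidAlgebra k G') =
      (MonoidAlgebra.single (φ g) r : MonoidAlgebra k G) := by
  refine (Rep.leftRegularHom_hom_single g _ r).trans ?_
  change r • ((Rep.leftRegular k G).ρ (φ g) (MonoidAlgebra.single 1 1 : MonoidAlgebra k G)) = _
  rw [ABs_ρ_single, mul_one, MonoidAlgebra.smul_single, smul_eq_mul, mul_one]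

theorem algφ_aug (φ : G' →* G) :
    algφ k φ ≫ (Rep.resFunctor φ).map (aug k G) = aug k G' := by
  have h : ((algφ k φ ≫ (Rep.resFunctor φ).map (aug k G)).hom.toLinearMap :
      MonoidAlgebra k G' →ₗ[k] k) = (aug k G').hom.toLinearMap := by
    refine MonoidAlgebra.lhom_ext' fun a => ?_
    ext
    change (aug k G).hom ((algφ k φ).hom (MonoidAlgebra.single a 1 : MonoidAlgebra k G')) =
      (aug k G').hom (MonoidAlgebra.single a 1 : MonoidAlgebra k G')
    rw [algφ_single, ABs_aug_single, ABs_aug_single]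
  exact Rep.hom_ext (Representation.IntertwiningMap.ext h)

/-- the mapped augmentation sequence -/
theorem augmap_exact (k : Type) [CommRing k] (φ : G' →* G) :
    ((augSC k G).map (Rep.resFunctor φ)).ShortExact :=
  (AugE_exact k G).map_of_exact (Rep.resFunctor φ)

/-- `I_{G'} → I_G` -/
noncomputable def Iφ (k : Type) {G G' : Type} [CommRing k] [Group G] [Group G'] (φ : G' →* G) :
    Iaug k G' ⟶ (Rep.resFunctor φ).obj (Iaug k G) :=
  haveI : Mono ((augSC k G).map (Rep.resFunctor φ)).f := (augmap_exact k φ).mono_f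
  (augmap_exact k φ).exact.lift (kernel.ι (aug k G') ≫ algφ k φ) (by
    change (kernel.ι (aug k G') ≫ algφ k φ) ≫ (Rep.resFunctor φ).map (aug k G) = 0
    rw [Category.assoc, algφ_aug]
    exact kernel.condition (aug k G'))

theorem Iφ_comp (φ : G' →* G) :
    Iφ k φ ≫ (Rep.resFunctor φ).map (kernel.ι (aug k G)) = kernel.ι (aug k G') ≫ algφ k φ :=
  haveI : Mono ((augSC k G).map (Rep.resFunctor φ)).f := (augmap_exact k φ).mono_f
  (augmap_exact k φ).exact.lift_f _ _

theorem Iφ_inc (φ : G' →* G) (x : (Iaug k G').V) :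
    inc k G ((Iφ k φ).hom x) = (algφ k φ).hom (inc k G' x) := by
  have h := congrArg (fun f => f.hom x) (Iφ_comp (k := k) φ)
  exact h

theorem rs_augCls (φ : G' →* G) :
    (augCls k G').comp (Ext.mk₀ (Iφ k φ)) (add_zero 1) = rs φ (augCls k G) := by
  let ψ : augSC k G' ⟶ (augSC k G).map (Rep.resFunctor φ) :=
    { τ₁ := Iφ k φ
      τ₂ := algφ k φ
      τ₃ := 𝟙 (Rep.trivial k G' k)
      comm₁₂ := Iφ_comp φ
      comm₂₃ := (algφ_aug φ).trans (Category.comp_id (aug k G')).symm }
  have h1 := ShortComplex.ShortExact.extClass_naturality (AugE_exact k G') (augmap_exact k φ) ψ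
  have h2 := Ext.mapExactFunctor_extClass (Rep.resFunctor φ) (AugE_exact k G)
  refine Eq.trans h1 ?_
  refine Eq.trans (Ext.mk₀_id_comp _) ?_
  exact h2.symm

/-- the morphism of twisted modules -/
noncomputable def EMφ (φ : G' →* G) (f : G → G → V) (hf : IsCoc f)
    (hf' : IsCoc (fun x y => f (φ x) (φ y))) :
    EM k (fun x y => f (φ x) (φ y)) hf' ⟶ (Rep.resFunctor φ).obj (EM k f hf) :=
  Rep.ofHom ⟨LinearMap.prod (LinearMap.fst k V (Iaug k G').V)
      ((Iφ k φ).hom.toLinearMap ∘ₗ LinearMap.snd k V (Iaug k G').V), by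
    intro g
    refine LinearMap.ext fun x => ?_
    change ((x.1 + linx k (fun y => f (φ g) (φ y)) (inc k G' x.2),
      (Iφ k φ).hom ((Iaug k G').ρ g x.2)) : V × (Iaug k G).V) =
      (x.1 + linx k (f (φ g)) (inc k G ((Iφ k φ).hom x.2)), (Iaug k G).ρ (φ g) ((Iφ k φ).hom x.2))
    refine Prod.ext ?_ ?_
    · change x.1 + linx k (fun y => f (φ g) (φ y)) (inc k G' x.2) =
        x.1 + linx k (f (φ g)) (inc k G ((Iφ k φ).hom x.2))
      rw [Iφ_inc]
      congr 1
      have key : linx k (fun y => f (φ g) (φ y)) =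
          linx k (f (φ g)) ∘ₗ (algφ k φ).hom.toLinearMap := by
        refine MonoidAlgebra.lhom_ext' fun a => ?_
        ext
        change linx k (fun y => f (φ g) (φ y)) (MonoidAlgebra.single a 1) =
          linx k (f (φ g)) ((algφ k φ).hom (MonoidAlgebra.single a 1 : MonoidAlgebra k G'))
        rw [algφ_single, linx_single, linx_single]
      rw [key]
      rfl
    · change (Iφ k φ).hom ((Iaug k G').ρ g x.2) = (Iaug k G).ρ (φ g) ((Iφ k φ).hom x.2)
      exact Rep.hom_comm_apply (Iφ k φ) g x.2⟩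

theorem rs_EMcls (φ : G' →* G) (f : G → G → V) (hf : IsCoc f)
    (hf' : IsCoc (fun x y => f (φ x) (φ y))) :
    EMcls k (fun x y => f (φ x) (φ y)) hf' =
      (Ext.mk₀ (Iφ k φ)).comp (rs φ (EMcls k f hf)) (zero_add 1) := by
  have hm : ((EMS k f hf).map (Rep.resFunctor φ)).ShortExact :=
    (EMS_exact k f hf).map_of_exact (Rep.resFunctor φ)
  let ψ : EMS k (fun x y => f (φ x) (φ y)) hf' ⟶ (EMS k f hf).map (Rep.resFunctor φ) :=
    { τ₁ := 𝟙 (Rep.trivial k G' V)
      τ₂ := EMφ φ f hf hf'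
      τ₃ := Iφ k φ
      comm₁₂ := by
        ext v
        change ((v, 0) : V × (Iaug k G).V) = ((v, (Iφ k φ).hom 0) : V × (Iaug k G).V)
        rw [map_zero]
      comm₂₃ := by
        ext v
        rfl }
  have h1 := ShortComplex.ShortExact.extClass_naturality
    (EMS_exact k (fun x y => f (φ x) (φ y)) hf') hm ψ
  have h2 := Ext.mapExactFunctor_extClass (Rep.resFunctor φ) (EMS_exact k f hf)
  have h3 : EMcls k (fun x y => f (φ x) (φ y)) hf' =
      (Ext.mk₀ (Iφ k φ)).comp hm.extClass (zero_add 1) :=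
    (Ext.comp_mk₀_id _).symm.trans h1
  rw [h3]
  exact congrArg (fun z => (Ext.mk₀ (Iφ k φ)).comp z (zero_add 1)) h2.symm

theorem rs_cls (φ : G' →* G) (f : G → G → V) (hf : IsCoc f)
    (hf' : IsCoc (fun x y => f (φ x) (φ y))) :
    rs φ (cls k f hf) = cls k (fun x y => f (φ x) (φ y)) hf' := by
  have h1 : rs φ (cls k f hf) = (rs φ (augCls k G)).comp (rs φ (EMcls k f hf)) rfl :=
    Ext.mapExactFunctor_comp (Rep.resFunctor φ) (augCls k G) (EMcls k f hf) rfl
  rw [h1]
  unfold cls
  rw [rs_EMcls φ f hf hf', ← rs_augCls φ]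
  exact Ext.comp_assoc_of_second_deg_zero (augCls k G') (Ext.mk₀ (Iφ k φ))
    (rs φ (EMcls k f hf)) rfl

end Pool.Agent.H71.RF
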